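import Pool.Agent.SQ.All
import Pool.Agent.SQ.Int
import Pool.Agent.SQ.Piv

/-!
# MP_2d493b_co: the positive square energy of connected graphs

`posSquareEnergy G` (in `Pool.Agent.SQ.Energy`) is the sum of the squares of the positive
eigenvalues (with multiplicities) of the real adjacency matrix of `G`.
-/

namespace Pool.Agent.Results.MP_2d493b_co.SquareEnergy

open Pool.Agent.SQ

/-- Q1 (full positive answer): a connected graph with `n` vertices and at least `n + 1` edges has
`s⁺(G) ≥ n`. -/
theorem result {V : Type} [Fintype V] [DecidableEq V] (G : SimpleGraph V) [DecidableRel G.Adj]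
    (hG : G.Connected) (hm : Fintype.card V + 1 ≤ G.edgeFinset.card) :
    (Fintype.card V : ℝ) ≤ posSquareEnergy G :=
  (all_of (main_of int_proof piv_proof) G hG).2.2 hm

end Pool.Agent.Results.MP_2d493b_co.SquareEnergy
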